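import Mathlib

/-!
# Theorem E, module TYP, part 2: the numerical part
-/

namespace Pool.Agent.Lib.MP_688fd0_co.TE.H74

theorem n_uX {ε u X : ℝ} (hε : 0 < ε) (hX : 0 ≤ X) (hu1 : u ≤ 61 / 10 * ε)
    (hX1 : X ≤ 11 / 10 * ε) : u * X ≤ 7 * ε ^ 2 := by
  have h1 : u * X ≤ (61 / 10 * ε) * (11 / 10 * ε) :=
    mul_le_mul hu1 hX1 hX (by positivity)
  nlinarith [sq_nonneg ε]

theorem n_p {ε e : ℝ} (hε : 0 < ε) (hε1 : ε ≤ 1 / 10 ^ 4) (he : 0 ≤ e) (he1 : e ≤ ε / 50) :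
    0 ≤ e * ε ∧ e * ε ≤ ε ^ 2 ∧ 0 ≤ 10 * ε - e - 10 * e * ε := by
  have h1 : 0 ≤ e * ε := mul_nonneg he hε.le
  have h2 : e * ε ≤ (ε / 50) * ε := mul_le_mul_of_nonneg_right he1 hε.le
  have h3 : ε ^ 2 = ε * ε := sq ε
  have h4 : ε * ε ≤ 1 / 10 ^ 4 * ε := mul_le_mul_of_nonneg_right hε1 hε.le
  have h5 : 0 ≤ ε * ε := by positivity
  refine ⟨h1, ?_, ?_⟩
  · rw [h3]; linarith
  · have h6 : 10 * e * ε = 10 * (e * ε) := by ring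
    rw [h6]
    linarith

theorem n_pz {ε p z : ℝ} (hε : 0 < ε) (hp0 : 0 ≤ p) (hp1 : p ≤ 10 * ε) (hz : -(12 * ε) ≤ z) :
    -(120 * ε ^ 2) ≤ p * z := by
  have h1 : 0 ≤ p * (z + 12 * ε) := mul_nonneg hp0 (by linarith)
  have h2 : 0 ≤ (10 * ε - p) * ε := mul_nonneg (by linarith) hε.le
  have h3 : ε ^ 2 = ε * ε := sq ε
  rw [h3]
  linarith [h1, h2, mul_comm p ε, show p * (z + 12 * ε) = p * z + 12 * (p * ε) by ring,
    show (10 * ε - p) * ε = 10 * (ε * ε) - p * ε by ring]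

theorem num1 {ε e u X Y : ℝ} (hε : 0 < ε) (hε1 : ε ≤ 1 / 10 ^ 4) (he : 0 ≤ e)
    (he1 : e ≤ ε / 50) (hu : 0 ≤ u) (hu1 : u ≤ 61 / 10 * ε) (hX : 0 ≤ X) (hX1 : X ≤ 11 / 10 * ε)
    (hY : 0 ≤ Y) (hY1 : Y ≤ 52 / 10 * ε)
    (h : (1 - e) * (1 + 10 * ε) * ((1 - u) * (1 + X - Y)) ≤ 1) :
    X + 10 * ε - e - 200 * ε ^ 2 ≤ u + Y := by
  obtain ⟨z, hz⟩ : ∃ z, z = X - Y - u - u * X := ⟨_, rfl⟩
  have huX : u * X ≤ 7 * ε ^ 2 := n_uX hε hX hu1 hX1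
  have huX0 : 0 ≤ u * X := mul_nonneg hu hX
  have huY0 : 0 ≤ u * Y := mul_nonneg hu hY
  have h1 : 1 + z ≤ (1 - u) * (1 + X - Y) := by
    have : (1 - u) * (1 + X - Y) = 1 + z + u * Y := by rw [hz]; ring
    rw [this]; linarith
  have hεε : ε ^ 2 ≤ ε / 10 ^ 4 := by
    have h4 : ε * ε ≤ 1 / 10 ^ 4 * ε := mul_le_mul_of_nonneg_right hε1 hε.le
    rw [sq]; linarith
  have hz1 : -(12 * ε) ≤ z := by rw [hz]; linarith
  obtain ⟨h5, h6, h7⟩ := n_p hε hε1 he he1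
  obtain ⟨p, hp⟩ : ∃ p, p = 10 * ε - e - 10 * e * ε := ⟨_, rfl⟩
  have h2 : (1 - e) * (1 + 10 * ε) = 1 + p := by rw [hp]; ring
  have hp0 : 0 ≤ p := by rw [hp]; exact h7
  have h8 : 10 * e * ε = 10 * (e * ε) := by ring
  have hp1 : p ≤ 10 * ε := by rw [hp, h8]; linarith
  rw [h2] at h
  have h3 : (1 + p) * (1 + z) ≤ 1 := (mul_le_mul_of_nonneg_left h1 (by linarith)).trans h
  have h4 : -(120 * ε ^ 2) ≤ p * z := n_pz hε hp0 hp1 hz1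
  have h9 : (1 + p) * (1 + z) = 1 + p + z + p * z := by ring
  rw [h9] at h3
  rw [h8] at hp
  linarith

theorem n_inv {x : ℝ} (h0 : 0 ≤ x) (h1 : x ≤ 1 / 2) : 1 ≤ (1 - x) * (1 + 2 * x) := by nlinarith

theorem pow_inv_le {t : ℝ} (ht : 0 ≤ t) {N : ℕ} (hN : (N : ℝ) * t ≤ 1 / 2) (ht1 : t < 1) :
    ((1 - t)⁻¹) ^ N ≤ 1 + 2 * (N * t) := by
  have h1 : 1 - N * t ≤ (1 - t) ^ N := by
    have := one_add_mul_le_pow (a := -t) (by linarith) N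
    calc 1 - N * t = 1 + N * (-t) := by ring
      _ ≤ (1 + (-t)) ^ N := this
      _ = (1 - t) ^ N := by ring
  have h2 : 0 < (1 - t) ^ N := pow_pos (by linarith) N
  have h3 : 0 ≤ (N : ℝ) * t := by positivity
  rw [inv_pow, inv_le_comm₀ h2 (by positivity)]
  refine le_trans ?_ h1
  rw [inv_le_iff_one_le_mul₀ (by positivity)]
  exact n_inv h3 hN

theorem n_th {t : ℝ} (ht : 0 ≤ t) (ht1 : t ≤ 1 / 2) :
    (1 - t)⁻¹ ≤ 1 + 2 * t ∧ (1 - t)⁻¹ ≤ 1 + t * (1 + 2 * t) ∧ 1 + t ≤ (1 - t)⁻¹ := by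
  have h0 : (0 : ℝ) < 1 - t := by linarith
  refine ⟨?_, ?_, ?_⟩
  · rw [inv_le_iff_one_le_mul₀ h0]; nlinarith
  · rw [inv_le_iff_one_le_mul₀ h0]
    nlinarith [mul_nonneg ht ht, mul_nonneg (mul_nonneg ht ht) (by linarith : 0 ≤ 1 - 2 * t)]
  · rw [le_inv_comm₀ (by linarith) h0, inv_eq_one_div, le_div_iff₀ (by linarith)]
    nlinarith

theorem rpow_low {t κ : ℝ} (ht : 0 ≤ t) (ht1 : t ≤ 1 / 2) (hκ : 0 ≤ κ) :
    1 - κ * t * (1 + 2 * t) ≤ (1 - t) ^ κ := by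
  have h0 : (0 : ℝ) < 1 - t := by linarith
  rw [Real.rpow_def_of_pos h0]
  have h1 : -(t * (1 + 2 * t)) ≤ Real.log (1 - t) := by
    have h2 := Real.one_sub_inv_le_log_of_pos h0
    refine le_trans ?_ h2
    have h3 := (n_th ht ht1).2.1
    linarith
  have h4 := Real.add_one_le_exp (Real.log (1 - t) * κ)
  have h5 : -(t * (1 + 2 * t)) * κ ≤ Real.log (1 - t) * κ := mul_le_mul_of_nonneg_right h1 hκ
  have h6 : -(t * (1 + 2 * t)) * κ = -(κ * t * (1 + 2 * t)) := by ring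
  rw [h6] at h5
  linarith

theorem n_eps {k t : ℝ} (hk : 1 ≤ k) (ht : 0 < t) (h : 10 ^ 6 * k ^ 3 * t ≤ 2) :
    k * (k * t) ≤ 2 / 10 ^ 6 ∧ k * t ≤ 2 / 10 ^ 6 ∧ t ≤ k * t := by
  have h1 : k * (k * t) ≤ k * (k * (k * t)) := by
    have : 0 ≤ k * (k * t) := by positivity
    nlinarith
  have h2 : 10 ^ 6 * k ^ 3 * t = 10 ^ 6 * (k * (k * (k * t))) := by ring
  rw [h2] at h
  have h3 : k * (k * t) ≤ 2 / 10 ^ 6 := by linarith
  have h4 : k * t ≤ k * (k * t) := by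
    have : 0 ≤ k * t := by positivity
    nlinarith
  exact ⟨h3, h4.trans h3, by nlinarith⟩

theorem n_rs {ε a b c1 c2 : ℝ} (hε : 0 ≤ ε) (h1 : a ≤ 101 / 100) (h2 : b ≤ 101 / 100)
    (hc1 : 0 ≤ c1) (hc2 : 0 ≤ c2) : ε * (c1 * a + c2 * b) ≤ (101 / 100 * (c1 + c2)) * ε := by
  have h3 : c1 * a + c2 * b ≤ 101 / 100 * (c1 + c2) := by nlinarith
  calc ε * (c1 * a + c2 * b) ≤ ε * (101 / 100 * (c1 + c2)) := mul_le_mul_of_nonneg_left h3 hε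
    _ = _ := by ring

theorem n_thav {θ av t : ℝ} (h1 : 1 ≤ θ) (h2 : θ ≤ 1 + 2 * t) (ht : t ≤ 1 / 100)
    (ha0 : 0 ≤ av) (ha : av ≤ 101 / 100) : av ≤ θ * av ∧ θ * av ≤ 11 / 10 := by
  constructor
  · nlinarith
  · have : θ * av ≤ (102 / 100) * (101 / 100) :=
      mul_le_mul (by linarith) ha ha0 (by norm_num)
    linarith

theorem n_y {ε Y h1' : ℝ} (hε : 0 ≤ ε) (h : Y ≤ (1 + 4 * ε) * h1') (h1 : h1' ≤ 505 / 100 * ε) :
    Y ≤ h1' + 21 * ε ^ 2 := by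
  have h2 : ε * h1' ≤ ε * (505 / 100 * ε) := mul_le_mul_of_nonneg_left h1 hε
  have h3 : (1 + 4 * ε) * h1' = h1' + 4 * (ε * h1') := by ring
  have h4 : 0 ≤ ε * ε := mul_nonneg hε hε
  rw [h3] at h
  rw [sq]
  linarith [show ε * (505 / 100 * ε) = 505 / 100 * (ε * ε) by ring]

theorem n_e {κ t k : ℝ} (hk : 1 ≤ k) (hκ : 0 ≤ κ) (hκk : 100 * κ ≤ k) (ht : 0 < t)
    (ht1 : t ≤ 1 / 100) :
    κ * t * (1 + 2 * t) ≤ κ * t + (k * t) ^ 2 ∧ κ * t * (1 + 2 * t) ≤ (k * t) / 50 := by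
  have h1 : κ * t ≤ k * t / 100 := by
    have := mul_le_mul_of_nonneg_right hκk ht.le
    linarith [show 100 * κ * t = 100 * (κ * t) by ring]
  have h0 : 0 ≤ κ * t := by positivity
  have h2 : t ≤ k * t := by nlinarith
  have h3 : 0 ≤ k * t := by positivity
  have h4 : (κ * t) * t ≤ (k * t / 100) * (k * t) := mul_le_mul h1 h2 ht.le (by positivity)
  have h5 : (κ * t) * t ≤ (κ * t) * (1 / 100) := mul_le_mul_of_nonneg_left ht1 h0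
  have h6 : κ * t * (1 + 2 * t) = κ * t + 2 * ((κ * t) * t) := by ring
  have h7 : 0 ≤ (k * t) * (k * t) := by positivity
  constructor
  · rw [h6, sq]; linarith [show (k * t / 100) * (k * t) = (k * t) * (k * t) / 100 by ring]
  · rw [h6]; linarith

/-- The first order expansion of the maximality inequality. -/
theorem num2 {k : ℕ} {ℓ κ t R10 R20 R11 R21 av : ℝ} (hk : 1 ≤ k) (hℓ : 1 ≤ ℓ)
    (hℓk : 100 * ℓ ≤ k) (hκ : 0 ≤ κ) (hκk : 100 * κ ≤ k) (ht : 0 < t)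
    (htk : 10 ^ 6 * (k : ℝ) ^ 3 * t ≤ 2)
    (a1 : 0 ≤ R10) (b1 : R10 ≤ 1 + ℓ / k) (a2 : 0 ≤ R20) (b2 : R20 ≤ 1 + ℓ / k)
    (a3 : 0 ≤ R11) (b3 : R11 ≤ 1 + ℓ / k) (a4 : 0 ≤ R21) (b4 : R21 ≤ 1 + ℓ / k)
    (a5 : 1 - ℓ / k ≤ av) (b5 : av ≤ 1 + ℓ / k)
    (h : (1 - t) ^ κ * ((((1 - t)⁻¹) ^ (6 * k) * (1 - t * (4 * k * R10 + 2 * k * R20))) *
      (((1 - t)⁻¹) ^ (4 * k) * (1 + k * (1 - t)⁻¹ * t * av -
        ((1 - t)⁻¹) ^ (2 * k) * (t * (4 * k * R11 + k * R21))))) ≤ 1) :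
    11 * (k : ℝ) - 2 * ℓ - κ ≤ k * (4 * R10 + 2 * R20 + 4 * R11 + R21) := by
  have hk0 : (1 : ℝ) ≤ k := by exact_mod_cast hk
  have hkp : (0 : ℝ) < k := by linarith
  have hℓk' : ℓ / k ≤ 1 / 100 := by
    rw [div_le_iff₀ hkp]; linarith
  have hℓk0 : 0 ≤ ℓ / k := by positivity
  obtain ⟨hkε, hεs, hte⟩ := n_eps hk0 ht htk
  obtain ⟨ε, hεdef⟩ : ∃ ε, ε = (k : ℝ) * t := ⟨_, rfl⟩
  rw [← hεdef] at hkε hεs hte
  have hε : 0 < ε := by rw [hεdef]; exact mul_pos hkp ht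
  have ht1 : t ≤ 1 / 100 := by linarith
  have h1t : 0 < 1 - t := by linarith
  obtain ⟨θ, hθ⟩ : ∃ θ, θ = (1 - t)⁻¹ := ⟨_, rfl⟩
  obtain ⟨t1, t2, t3⟩ := n_th ht.le (by linarith)
  have hθ2k : θ ^ (2 * k) ≤ 1 + 4 * ε := by
    have := pow_inv_le ht.le (N := 2 * k) (by
      push_cast; rw [mul_assoc, ← hεdef]; linarith) (by linarith)
    push_cast at this
    rw [hθ, hεdef]
    linarith
  rw [← hθ] at t1 t2 t3 h
  have hθ1 : 1 ≤ θ := by linarith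
  have hθ2k1 : 1 ≤ θ ^ (2 * k) := one_le_pow₀ hθ1
  have hθ10k : 1 + 10 * ε ≤ θ ^ (6 * k) * θ ^ (4 * k) := by
    rw [← pow_add]
    have h1 := one_add_mul_le_pow (a := θ - 1) (by linarith) (6 * k + 4 * k)
    have h2 : t ≤ θ - 1 := by linarith
    have h3 : (k : ℝ) * t ≤ k * (θ - 1) := mul_le_mul_of_nonneg_left h2 hkp.le
    have h4 : (1 + (θ - 1)) ^ (6 * k + 4 * k) = θ ^ (6 * k + 4 * k) := by ring
    rw [h4] at h1
    refine le_trans ?_ h1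
    push_cast
    rw [hεdef]
    linarith [show (6 * (k : ℝ) + 4 * k) * (θ - 1) = 10 * (k * (θ - 1)) by ring]
  obtain ⟨u, hu⟩ : ∃ u, u = t * (4 * k * R10 + 2 * k * R20) := ⟨_, rfl⟩
  obtain ⟨h1', hh1⟩ : ∃ h1', h1' = t * (4 * k * R11 + k * R21) := ⟨_, rfl⟩
  obtain ⟨X, hX⟩ : ∃ X, X = (k : ℝ) * θ * t * av := ⟨_, rfl⟩
  obtain ⟨Y, hY⟩ : ∃ Y, Y = θ ^ (2 * k) * h1' := ⟨_, rfl⟩
  obtain ⟨e, he⟩ : ∃ e, e = κ * t * (1 + 2 * t) := ⟨_, rfl⟩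
  rw [← hu, ← hh1, ← hX, ← hY] at h
  have hu_eq : u = ε * (4 * R10 + 2 * R20) := by rw [hu, hεdef]; ring
  have hh1_eq : h1' = ε * (4 * R11 + 1 * R21) := by rw [hh1, hεdef]; ring
  have hX_eq : X = ε * (θ * av) := by rw [hX, hεdef]; ring
  have hu0 : 0 ≤ u := by rw [hu_eq]; positivity
  have hu1 : u ≤ 61 / 10 * ε := by
    rw [hu_eq]
    have := n_rs (ε := ε) (c1 := 4) (c2 := 2) hε.le (b1.trans (by linarith))
      (b2.trans (by linarith)) (by norm_num) (by norm_num)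
    linarith
  have hh10 : 0 ≤ h1' := by rw [hh1_eq]; positivity
  have hh11 : h1' ≤ 505 / 100 * ε := by
    rw [hh1_eq]
    have := n_rs (ε := ε) (c1 := 4) (c2 := 1) hε.le (b3.trans (by linarith))
      (b4.trans (by linarith)) (by norm_num) (by norm_num)
    linarith
  have hav0 : 0 ≤ av := by linarith
  obtain ⟨v1, v2⟩ := n_thav hθ1 t1 ht1 hav0 (b5.trans (by linarith))
  have hX0 : 0 ≤ X := by rw [hX_eq]; positivity
  have hX1 : X ≤ 11 / 10 * ε := by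
    rw [hX_eq]
    linarith [mul_le_mul_of_nonneg_left v2 hε.le]
  have hXlow : ε - t * ℓ ≤ X := by
    rw [hX_eq]
    have h2 : ε * (1 - ℓ / k) = ε - t * ℓ := by
      rw [hεdef]
      field_simp
    rw [← h2]
    exact mul_le_mul_of_nonneg_left (a5.trans v1) hε.le
  have hY0 : 0 ≤ Y := by rw [hY]; exact mul_nonneg (by positivity) hh10
  have hYup : Y ≤ h1' + 21 * ε ^ 2 := by
    refine n_y hε.le ?_ hh11
    rw [hY]
    exact mul_le_mul_of_nonneg_right hθ2k hh10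
  have hεε : ε ^ 2 ≤ ε / 10 ^ 4 := by
    rw [sq]
    have := mul_le_mul_of_nonneg_left hεs hε.le
    linarith
  have hY1 : Y ≤ 52 / 10 * ε := by linarith
  have he0 : 0 ≤ e := by rw [he]; positivity
  obtain ⟨e1, e2⟩ := n_e hk0 hκ hκk ht ht1
  rw [← he, ← hεdef] at e1 e2
  have hrp : 1 - e ≤ (1 - t) ^ κ := by
    have := rpow_low ht.le (by linarith) hκ
    rw [he]; exact this
  have hm : (1 - e) * (1 + 10 * ε) * ((1 - u) * (1 + X - Y)) ≤ 1 := by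
    have hpos1 : 0 ≤ 1 - u := by linarith
    have hpos2 : 0 ≤ 1 + X - Y := by linarith
    have hpos : 0 ≤ (1 - u) * (1 + X - Y) := mul_nonneg hpos1 hpos2
    refine le_trans ?_ h
    have h3 : (1 - t) ^ κ * ((θ ^ (6 * k) * (1 - u)) * (θ ^ (4 * k) * (1 + X - Y))) =
        ((1 - t) ^ κ * (θ ^ (6 * k) * θ ^ (4 * k))) * ((1 - u) * (1 + X - Y)) := by ring
    rw [h3]
    refine mul_le_mul_of_nonneg_right ?_ hpos
    refine mul_le_mul hrp hθ10k (by positivity) (Real.rpow_nonneg h1t.le _)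
  have hfin := num1 hε (by linarith) he0 e2 hu0 hu1 hX0 hX1 hY0 hY1 hm
  -- divide by `t`
  have h5 : 11 * ε - t * ℓ - κ * t - 222 * ε ^ 2 ≤ u + h1' := by linarith
  have h6 : ε ^ 2 = (k * ε) * t := by rw [hεdef]; ring
  have h8 : t * (k * (4 * R10 + 2 * R20 + 4 * R11 + R21)) = u + h1' := by
    rw [hu, hh1]; ring
  have h9 : t * (11 * (k : ℝ) - 2 * ℓ - κ) = 11 * ε - t * ℓ - κ * t - ℓ * t := by
    rw [hεdef]; ring
  have h10 : (k * ε) * t ≤ 2 / 10 ^ 6 * t := mul_le_mul_of_nonneg_right hkε ht.le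
  have h11 : 1 * t ≤ ℓ * t := mul_le_mul_of_nonneg_right hℓ ht.le
  have h7 : t * (11 * (k : ℝ) - 2 * ℓ - κ) ≤ t * (k * (4 * R10 + 2 * R20 + 4 * R11 + R21)) := by
    rw [h8, h9]
    rw [h6] at h5
    linarith
  exact le_of_mul_le_mul_left h7 ht

end Pool.Agent.Lib.MP_688fd0_co.TE.H74
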