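import Pool.Agent.Lib.MP_688fd0_co.TE.H74.TypBern
import Pool.Agent.Lib.MP_688fd0_co.TE.H74.TypNum

/-!
# Theorem E, module TYP: the maximiser is typical, Lemma (1.7)
-/

namespace Pool.Agent.Lib.MP_688fd0_co.TE.H74

open Finset
open Pool.Agent.Lib.MP_688fd0_co.TE.H41

universe u

set_option linter.unusedSectionVars false

section

variable {G : Type u} [Group G] [Fintype G] [DecidableEq G]

theorem nn_um (S : Finset G) : NN (UM S) := fun _ _ =>
  div_nonneg (ind_nonneg _) (Nat.cast_nonneg _)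

/-- The kernel of `B \ B1`. -/
theorem um_sdiff {B B1 : Finset G} (h1 : B1 ⊆ B) (hb : 0 < (B.card : ℝ))
    (hb1 : 0 < (B1.card : ℝ)) (hb' : 0 < ((B \ B1).card : ℝ)) {t : ℝ}
    (ht : t = B1.card / B.card) :
    UM (B \ B1) = (1 - t)⁻¹ • (UM B - t • UM B1) := by
  have hcard : ((B \ B1).card : ℝ) = B.card - B1.card := by
    rw [Finset.card_sdiff_of_subset h1, Nat.cast_sub (Finset.card_le_card h1)]
  rw [hcard] at hb'
  have hθ : 1 - t = (B.card - B1.card) / B.card := by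
    rw [ht]; field_simp
  ext x y
  rw [Matrix.smul_apply, Matrix.sub_apply, Matrix.smul_apply, smul_eq_mul, smul_eq_mul]
  unfold UM
  rw [hcard, hθ, ht]
  have hi : ind (x⁻¹ * y ∈ B \ B1) = ind (x⁻¹ * y ∈ B) - ind (x⁻¹ * y ∈ B1) := by
    by_cases h2 : x⁻¹ * y ∈ B1
    · rw [ind_of h2, ind_of (h1 h2), ind_not (by simp [h2])]
      ring
    · by_cases h3 : x⁻¹ * y ∈ B
      · rw [ind_of h3, ind_not h2, ind_of (by simp [h2, h3])]
        ring
      · rw [ind_not h3, ind_not h2, ind_not (by simp [h3])]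
        ring
  rw [hi]
  field_simp

theorem um_part {B B1 : Finset G} (h1 : B1 ⊆ B) (hb : 0 < (B.card : ℝ))
    (hb1 : 0 < (B1.card : ℝ)) {t : ℝ} (ht : t = B1.card / B.card) :
    LEm (t • UM B1) (UM B) := by
  intro x y
  rw [Matrix.smul_apply, smul_eq_mul]
  unfold UM
  rw [ht]
  have : (B1.card : ℝ) / B.card * (ind (x⁻¹ * y ∈ B1) / B1.card) = ind (x⁻¹ * y ∈ B1) / B.card := by
    field_simp
  rw [this]
  exact div_le_div_of_nonneg_right (ind_mono (fun h => h1 h)) hb.le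

/-- First average. -/
noncomputable def M1 (B C : Finset G) (τ : Bool) (k : ℕ) : Matrix G G ℝ :=
  WM B C τ * UM B * SM B C τ ^ (2 * k - 1)

/-- Second average. -/
noncomputable def M2 (B C : Finset G) (τ : Bool) (k : ℕ) : Matrix G G ℝ :=
  UM B * SM B C τ ^ (2 * k - 1) * UM B

theorem inv_M1 (B C : Finset G) (τ : Bool) (k : ℕ) : Inv (M1 B C τ k) :=
  inv_mul (inv_mul (wm_inv B C τ) (um_inv B)) (inv_pow (sm_inv B C τ) _)

theorem inv_M2 (B C : Finset G) (τ : Bool) (k : ℕ) : Inv (M2 B C τ k) :=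
  inv_mul (inv_mul (um_inv B) (inv_pow (sm_inv B C τ) _)) (um_inv B)

/-- The three first order terms. -/
theorem three {B C B1 : Finset G} (hB : Sy B) (hC : Sy C) (hB1 : Sy B1) (τ : Bool) (k : ℕ)
    (c1 c2 : ℝ) :
    ((c1 • (UM B1 * WM B C τ * UM B) + c2 • (UM B * UM B1 * UM B) +
      c1 • (UM B * WM B C τ * UM B1)) * SM B C τ ^ (2 * k - 1)) 1 1 =
      2 * c1 * (UM B1 * M1 B C τ k) 1 1 + c2 * (UM B1 * M2 B C τ k) 1 1 := by
  set S := SM B C τ ^ (2 * k - 1) with hS
  have iS : Inv S := inv_pow (sm_inv B C τ) _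
  have tS : S.transpose = S := tr_pow (sm_tr hB hC τ) _
  have e1 : (UM B1 * WM B C τ * UM B * S) = UM B1 * M1 B C τ k := by
    unfold M1
    simp only [Matrix.mul_assoc, hS]
  have e2 : (UM B * UM B1 * UM B * S) 1 1 = (UM B1 * M2 B C τ k) 1 1 := by
    have : UM B * UM B1 * UM B * S = UM B * (UM B1 * UM B * S) := by
      simp only [Matrix.mul_assoc]
    rw [this, cyc (um_inv B) (inv_mul (inv_mul (um_inv B1) (um_inv B)) iS)]
    unfold M2
    simp only [Matrix.mul_assoc, hS]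
  have e3 : (UM B * WM B C τ * UM B1 * S) 1 1 = (UM B1 * M1 B C τ k) 1 1 := by
    have h1 : UM B * WM B C τ * UM B1 * S = (UM B * WM B C τ) * (UM B1 * S) := by
      simp only [Matrix.mul_assoc]
    rw [h1, cyc (inv_mul (um_inv B) (wm_inv B C τ)) (inv_mul (um_inv B1) iS)]
    have h2 : (UM B1 * S * (UM B * WM B C τ)) 1 1 =
        (UM B1 * S * (UM B * WM B C τ)).transpose 1 1 := rfl
    rw [h2]
    rw [Matrix.transpose_mul, Matrix.transpose_mul, Matrix.transpose_mul, tS,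
      um_tr B hB.inv, um_tr B1 hB1.inv, wm_tr hB hC]
    have h3 : WM B C τ * UM B * (S * UM B1) = (WM B C τ * UM B * S) * UM B1 := by
      simp only [Matrix.mul_assoc]
    have h4 : WM B C τ * UM B * S = M1 B C τ k := rfl
    rw [h3, h4, cyc (inv_M1 B C τ k) (um_inv B1)]
  rw [add_mul, add_mul, Matrix.smul_mul, Matrix.smul_mul, Matrix.smul_mul, Matrix.add_apply,
    Matrix.add_apply, Matrix.smul_apply, Matrix.smul_apply, Matrix.smul_apply, e1, e2, e3]
  simp only [smul_eq_mul]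
  ring

/-- Lower bound for `q_0` of `B \ B1`. -/
theorem q0_low {B C B1 : Finset G} (hB : Sy B) (hC : Sy C) (hB1 : Sy B1) (h1 : B1 ⊆ B)
    (hb' : 0 < ((B \ B1).card : ℝ)) {t : ℝ} (ht : t = B1.card / B.card) (k : ℕ) :
    ((1 - t)⁻¹) ^ (6 * k) * (qf B C false k - (2 * k : ℕ) *
      (2 * t * (UM B1 * M1 B C false k) 1 1 + t * (UM B1 * M2 B C false k) 1 1)) ≤
      qf (B \ B1) C false k := by
  have hb : 0 < (B.card : ℝ) := by exact_mod_cast hB.ne.card_pos
  have hb1 : 0 < (B1.card : ℝ) := by exact_mod_cast hB1.ne.card_pos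
  have ht0 : 0 ≤ t := by rw [ht]; positivity
  have htl : t < 1 := by
    have hcard : ((B \ B1).card : ℝ) = B.card - B1.card := by
      rw [Finset.card_sdiff_of_subset h1, Nat.cast_sub (Finset.card_le_card h1)]
    rw [ht, div_lt_one hb]; linarith
  set θ := (1 - t)⁻¹ with hθ
  have hθ0 : 0 ≤ θ := inv_nonneg.2 (by linarith)
  set P := UM B - t • UM B1 with hP
  have hpart := um_part h1 hb hb1 ht
  have nP : NN P := fun x y => by
    rw [hP, Matrix.sub_apply]; exact sub_nonneg.2 (hpart x y)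
  have leP : LEm P (UM B) := fun x y => by
    rw [hP, Matrix.sub_apply]
    have := nn_smul (nn_um B1) ht0 x y
    linarith
  have dP : ∀ x y, UM B x y - P x y ≤ (t • UM B1) x y := fun x y => by
    rw [hP, Matrix.sub_apply]; linarith
  have hSM : SM (B \ B1) C false = θ ^ 3 • (P * P * P) := by
    have hW : WM (B \ B1) C false = UM (B \ B1) := by unfold WM; simp
    unfold SM
    rw [hW, um_sdiff h1 hb hb1 hb' ht, ← hθ, ← hP]
    simp only [Matrix.smul_mul, Matrix.mul_smul, smul_smul]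
    congr 1
    ring
  have hS : SM B C false = UM B * UM B * UM B := by
    unfold SM WM; simp
  have hqf : qf (B \ B1) C false k = θ ^ (6 * k) * ((P * P * P) ^ (2 * k)) 1 1 := by
    unfold qf
    rw [hSM, smul_pow, Matrix.smul_apply, smul_eq_mul, ← pow_mul]
    congr 2
    ring
  rw [hqf]
  refine mul_le_mul_of_nonneg_left ?_ (pow_nonneg hθ0 _)
  set D := t • (UM B1 * WM B C false * UM B) + t • (UM B * UM B1 * UM B) +
      t • (UM B * WM B C false * UM B1) with hD
  have hD' : D = (t • UM B1) * UM B * UM B + UM B * (t • UM B1) * UM B +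
      UM B * UM B * (t • UM B1) := by
    have hW : WM B C false = UM B := by unfold WM; simp
    rw [hD, hW]
    simp only [Matrix.smul_mul, Matrix.mul_smul]
  have nD : NN D := by
    rw [hD']
    have n1 := nn_smul (nn_um B1) ht0
    exact nn_add (nn_add (nn_mul (nn_mul n1 (nn_um B)) (nn_um B))
      (nn_mul (nn_mul (nn_um B) n1) (nn_um B))) (nn_mul (nn_mul (nn_um B) (nn_um B)) n1)
  have iD : Inv D := by
    rw [hD']
    have n1 := inv_smul' (um_inv B1) t
    exact inv_add (inv_add (inv_mul (inv_mul n1 (um_inv B)) (um_inv B))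
      (inv_mul (inv_mul (um_inv B) n1) (um_inv B))) (inv_mul (inv_mul (um_inv B) (um_inv B)) n1)
  have hbern := bern (A := SM B C false) (A' := P * P * P) (D := D) (nn_mul (nn_mul nP nP) nP)
    (by rw [hS]; exact LEm.mul (nn_mul nP nP) nP (LEm.mul nP nP leP leP) leP) nD
    (by
      rw [hS, hD']
      exact prod3 nP nP nP leP leP leP dP dP dP) (sm_inv B C false) iD (2 * k)
  have h3 := three hB hC hB1 false k t t
  rw [← hD] at h3
  rw [h3] at hbern
  exact hbern

/-- Lower bound for `q_1` of `B \ B1`. -/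
theorem q1_low {B C B1 : Finset G} (hB : Sy B) (hC : Sy C) (hB1 : Sy B1) (h1 : B1 ⊆ B)
    (hb' : 0 < ((B \ B1).card : ℝ)) {t : ℝ} (ht : t = B1.card / B.card) {k : ℕ} (hk : 1 ≤ k) :
    ((1 - t)⁻¹) ^ (4 * k) * (qf B C true k + (2 * k : ℕ) * ((1 - t)⁻¹ * t / 2 *
        (UM B * M2 B C true k) 1 1) - (2 * k : ℕ) * (((1 - t)⁻¹) ^ (2 * k) *
      (2 * t * (UM B1 * M1 B C true k) 1 1 + t / 2 * (UM B1 * M2 B C true k) 1 1))) ≤
      qf (B \ B1) C true k := by
  have hb : 0 < (B.card : ℝ) := by exact_mod_cast hB.ne.card_pos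
  have hb1 : 0 < (B1.card : ℝ) := by exact_mod_cast hB1.ne.card_pos
  have ht0 : 0 ≤ t := by rw [ht]; positivity
  have htl : t < 1 := by
    have hcard : ((B \ B1).card : ℝ) = B.card - B1.card := by
      rw [Finset.card_sdiff_of_subset h1, Nat.cast_sub (Finset.card_le_card h1)]
    rw [ht, div_lt_one hb]; linarith
  have h1t : 0 < 1 - t := by linarith
  set θ := (1 - t)⁻¹ with hθ
  have hθ0 : 0 ≤ θ := inv_nonneg.2 h1t.le
  have hθt : θ * t = θ - 1 := by
    rw [hθ]; field_simp; ring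
  have hθ1 : 1 ≤ θ := by
    have : 0 ≤ θ * t := mul_nonneg hθ0 ht0
    linarith
  set P := UM B - t • UM B1 with hP
  have hpart := um_part h1 hb hb1 ht
  have nP : NN P := fun x y => by
    rw [hP, Matrix.sub_apply]; exact sub_nonneg.2 (hpart x y)
  have leP : LEm P (UM B) := fun x y => by
    rw [hP, Matrix.sub_apply]
    have := nn_smul (nn_um B1) ht0 x y
    linarith
  have dP : ∀ x y, UM B x y - P x y ≤ (t • UM B1) x y := fun x y => by
    rw [hP, Matrix.sub_apply]; linarith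
  -- the middle letters
  set a := (θ / 2) • UM B + (1 / 2 : ℝ) • UM C with ha
  set a' := (θ / 2) • P + (1 / 2 : ℝ) • UM C with ha'
  have na' : NN a' := nn_add (nn_smul nP (by positivity)) (nn_smul (nn_um C) (by norm_num))
  have lea : LEm a' a := LEm.add (LEm.smul leP (by positivity)) (LEm.refl _)
  have nthν : NN ((θ * t / 2) • UM B1) := nn_smul (nn_um B1) (by positivity)
  have da : ∀ x y, a x y - a' x y ≤ ((θ * t / 2) • UM B1) x y := fun x y => by
    rw [ha, ha', hP]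
    simp only [Matrix.add_apply, Matrix.smul_apply, Matrix.sub_apply, smul_eq_mul]
    apply le_of_eq
    ring
  have na : NN a := fun x y => (na' x y).trans (lea x y)
  have leaW : LEm a (θ • WM B C true) := fun x y => by
    have hW : WM B C true = (1 / 2 : ℝ) • (UM B + UM C) := by unfold WM; simp
    rw [ha, hW]
    simp only [Matrix.add_apply, Matrix.smul_apply, smul_eq_mul]
    have := nn_um C x y
    nlinarith
  have haW : a = WM B C true + (θ * t / 2) • UM B := by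
    have hW : WM B C true = (1 / 2 : ℝ) • (UM B + UM C) := by unfold WM; simp
    rw [ha, hW, hθt]
    ext x y
    simp only [Matrix.add_apply, Matrix.smul_apply, smul_eq_mul]
    ring
  have hSM : SM (B \ B1) C true = θ ^ 2 • (P * a' * P) := by
    have hW : WM (B \ B1) C true = a' := by
      unfold WM
      rw [um_sdiff h1 hb hb1 hb' ht, ← hθ, ← hP, ha']
      ext x y
      simp only [if_true, Matrix.add_apply, Matrix.smul_apply, smul_eq_mul]
      ring
    unfold SM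
    rw [hW, um_sdiff h1 hb hb1 hb' ht, ← hθ, ← hP]
    simp only [Matrix.smul_mul, Matrix.mul_smul, smul_smul]
    congr 1
    ring
  have hqf : qf (B \ B1) C true k = θ ^ (4 * k) * ((P * a' * P) ^ (2 * k)) 1 1 := by
    unfold qf
    rw [hSM, smul_pow, Matrix.smul_apply, smul_eq_mul, ← pow_mul]
    congr 2
    ring
  rw [hqf]
  refine mul_le_mul_of_nonneg_left ?_ (pow_nonneg hθ0 _)
  set A := UM B * a * UM B with hA
  have nA : NN A := nn_mul (nn_mul (nn_um B) na) (nn_um B)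
  have ia : Inv a := inv_add (inv_smul' (um_inv B) _) (inv_smul' (um_inv C) _)
  have iA : Inv A := inv_mul (inv_mul (um_inv B) ia) (um_inv B)
  have nν := nn_smul (nn_um B1) ht0
  have iν := inv_smul' (um_inv B1) t
  have iθν := inv_smul' (um_inv B1) (θ * t / 2)
  set D := (t • UM B1) * a * UM B + UM B * ((θ * t / 2) • UM B1) * UM B +
      UM B * a * (t • UM B1) with hD
  have nD : NN D := nn_add (nn_add (nn_mul (nn_mul nν na) (nn_um B))
      (nn_mul (nn_mul (nn_um B) nthν) (nn_um B))) (nn_mul (nn_mul (nn_um B) na) nν)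
  have iD : Inv D := inv_add (inv_add (inv_mul (inv_mul iν ia) (um_inv B))
      (inv_mul (inv_mul (um_inv B) iθν) (um_inv B))) (inv_mul (inv_mul (um_inv B) ia) iν)
  have hbern := bern (A := A) (A' := P * a' * P) (D := D) (nn_mul (nn_mul nP na') nP)
    (LEm.mul (nn_mul nP na') nP (LEm.mul nP na' leP lea) leP) nD
    (prod3 nP na' nP leP lea leP dP da dP) iA iD (2 * k)
  -- gain
  have nS : NN (SM B C true) := (sm_ds hB hC true).nn
  have nE : NN ((θ * t / 2) • (UM B * UM B * UM B)) :=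
    nn_smul (nn_mul (nn_mul (nn_um B) (nn_um B)) (nn_um B)) (by positivity)
  have iE : Inv ((θ * t / 2) • (UM B * UM B * UM B)) :=
    inv_smul' (inv_mul (inv_mul (um_inv B) (um_inv B)) (um_inv B)) _
  have hAE : SM B C true + (θ * t / 2) • (UM B * UM B * UM B) = A := by
    rw [hA, haW]
    unfold SM
    rw [mul_add, add_mul, Matrix.mul_smul, Matrix.smul_mul]
  have hbern2 := bern2 (A := A) nS nE (by rw [hAE]; exact LEm.refl _) (sm_inv B C true) iE (2 * k)
  have hgain : (((θ * t / 2) • (UM B * UM B * UM B)) * SM B C true ^ (2 * k - 1)) 1 1 =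
      θ * t / 2 * (UM B * M2 B C true k) 1 1 := by
    rw [Matrix.smul_mul, Matrix.smul_apply, smul_eq_mul]
    have : UM B * UM B * UM B * SM B C true ^ (2 * k - 1) =
        UM B * (UM B * UM B * SM B C true ^ (2 * k - 1)) := by
      simp only [Matrix.mul_assoc]
    rw [this, cyc (um_inv B) (inv_mul (inv_mul (um_inv B) (um_inv B))
      (inv_pow (sm_inv B C true) _))]
    unfold M2
    simp only [Matrix.mul_assoc]
  rw [hgain] at hbern2
  -- loss
  have leAS : LEm A (θ • SM B C true) := by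
    have h2 := LEm.mul (nn_mul (nn_um B) na) (nn_um B)
      (LEm.mul (nn_um B) na (LEm.refl (UM B)) leaW) (LEm.refl (UM B))
    unfold SM
    rwa [Matrix.mul_smul, Matrix.smul_mul] at h2
  have hpow := pow_le nA leAS (2 * k - 1)
  have nW : NN (WM B C true) := (wm_ds hB hC true).nn
  set D' := (θ * t) • (UM B1 * WM B C true * UM B) + (θ * t / 2) • (UM B * UM B1 * UM B) +
      (θ * t) • (UM B * WM B C true * UM B1) with hD'
  have leD : LEm D D' := by
    have g1 : LEm ((t • UM B1) * a * UM B) ((θ * t) • (UM B1 * WM B C true * UM B)) := by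
      have h2 := LEm.mul (nn_mul nν na) (nn_um B)
        (LEm.mul nν na (LEm.refl _) leaW) (LEm.refl (UM B))
      have e : (θ * t) • (UM B1 * WM B C true * UM B) =
          (t • UM B1) * (θ • WM B C true) * UM B := by
        simp only [Matrix.smul_mul, Matrix.mul_smul, smul_smul, mul_comm θ t]
      rw [e]
      exact h2
    have g3 : LEm (UM B * a * (t • UM B1)) ((θ * t) • (UM B * WM B C true * UM B1)) := by
      have h2 := LEm.mul (nn_mul (nn_um B) na) nν
        (LEm.mul (nn_um B) na (LEm.refl _) leaW) (LEm.refl (t • UM B1))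
      have e : (θ * t) • (UM B * WM B C true * UM B1) =
          UM B * (θ • WM B C true) * (t • UM B1) := by
        simp only [Matrix.smul_mul, Matrix.mul_smul, smul_smul, mul_comm θ t]
      rw [e]
      exact h2
    have g2 : LEm (UM B * ((θ * t / 2) • UM B1) * UM B)
        ((θ * t / 2) • (UM B * UM B1 * UM B)) := by
      rw [Matrix.mul_smul, Matrix.smul_mul]
      exact LEm.refl _
    exact LEm.add (LEm.add g1 g2) g3
  have hloss : (D * A ^ (2 * k - 1)) 1 1 ≤ θ ^ (2 * k) *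
      (2 * t * (UM B1 * M1 B C true k) 1 1 + t / 2 * (UM B1 * M2 B C true k) 1 1) := by
    have h2 := LEm.mul nD (nn_pow nA (2 * k - 1)) leD hpow 1 1
    refine h2.trans (le_of_eq ?_)
    rw [Matrix.mul_smul, Matrix.smul_apply, smul_eq_mul]
    have h3 := three hB hC hB1 true k (θ * t) (θ * t / 2)
    rw [← hD'] at h3
    rw [h3]
    have h4 : θ ^ (2 * k) = θ ^ (2 * k - 1) * θ := by
      rw [← pow_succ]
      congr 1
      omega
    rw [h4]
    ring
  have hN : (0 : ℝ) ≤ ((2 * k : ℕ) : ℝ) := Nat.cast_nonneg _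
  have h5 := mul_le_mul_of_nonneg_left hloss hN
  have h6 : qf B C true k = (SM B C true ^ (2 * k)) 1 1 := rfl
  rw [h6]
  linarith

/-- Averages over a finite set. -/
theorem avg_eq (S : Finset G) (M : Matrix G G ℝ) (q : ℝ) :
    (UM S * M) 1 1 / q = (∑ y ∈ S, M y 1 / q) / (S.card : ℝ) := by
  rw [Matrix.mul_apply, um_sum, ← Finset.sum_div]
  ring

theorem avg_nonneg {S : Finset G} {f : G → ℝ} (h : ∀ s, 0 ≤ f s) :
    0 ≤ (∑ y ∈ S, f y) / (S.card : ℝ) :=
  div_nonneg (Finset.sum_nonneg fun y _ => h y) (Nat.cast_nonneg _)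

theorem avg_le {S : Finset G} (hS : S.Nonempty) {f : G → ℝ} {c : ℝ} (h : ∀ s, f s ≤ c) :
    (∑ y ∈ S, f y) / (S.card : ℝ) ≤ c := by
  have hb : (0 : ℝ) < S.card := by exact_mod_cast hS.card_pos
  rw [div_le_iff₀ hb]
  have := Finset.sum_le_card_nsmul S f c (fun s _ => h s)
  rw [nsmul_eq_mul] at this
  linarith [mul_comm (S.card : ℝ) c]

theorem avg_two {s : G} {f : G → ℝ} {c : ℝ} (h : ∀ s, f s ≤ c) :
    2 * ((∑ y ∈ ({s, s⁻¹} : Finset G), f y) / (({s, s⁻¹} : Finset G).card : ℝ)) - c ≤ f s := by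
  by_cases hs : s = s⁻¹
  · have h1 : ({s, s⁻¹} : Finset G) = {s} := by
      rw [← hs]; simp
    rw [h1, Finset.sum_singleton, Finset.card_singleton]
    have := h s
    push_cast
    linarith
  · rw [Finset.sum_pair hs, Finset.card_pair hs]
    have := h s⁻¹
    push_cast
    linarith

theorem last {k ℓ κ R r : ℝ} (hk : 0 < k) (hℓ : 0 ≤ ℓ) (hκ : 0 ≤ κ)
    (h1 : k - 12 * ℓ - κ ≤ k * R) (h2 : 2 * R - (1 + ℓ / k) ≤ r) :
    1 - 40 * (ℓ + κ) / k ≤ r := by
  refine le_trans ?_ h2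
  have h3 : 1 - (12 * ℓ + κ) / k ≤ R := by
    have : 1 - (12 * ℓ + κ) / k = (k - 12 * ℓ - κ) / k := by field_simp; ring
    rw [this, div_le_iff₀ hk]
    linarith [mul_comm k R]
  have h4 : 1 - 40 * (ℓ + κ) / k = 2 * (1 - (12 * ℓ + κ) / k) - (1 + ℓ / k) -
      (15 * ℓ + 38 * κ) / k := by field_simp; ring
  have h5 : 0 ≤ (15 * ℓ + 38 * κ) / k := by positivity
  rw [h4]
  linarith

theorem typ_aux (B C : Finset G) (hB : Sy B) (hC : Sy C) (k : ℕ) (κ : ℝ) (hk : 1 ≤ k)
    (hℓk : 100 * Real.log (Fintype.card G) ≤ k) (hκ : 0 ≤ κ) (hκk : 100 * κ ≤ k)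
    (hℓ : 1 ≤ Real.log (Fintype.card G)) (hbig : 10 ^ 6 * (k : ℝ) ^ 3 ≤ B.card)
    (hmax : ∀ B' ⊆ B, Sy B' → (B'.card : ℝ) ^ κ * qf B' C false k * qf B' C true k ≤
      (B.card : ℝ) ^ κ * qf B C false k * qf B C true k) (s : G) (hs : s ∈ B) :
    ∀ τ, 1 - 40 * (Real.log (Fintype.card G) + κ) / k ≤ r1 B C τ k s ∧
      1 - 40 * (Real.log (Fintype.card G) + κ) / k ≤ r2 B C τ k s := by
  set ℓ := Real.log (Fintype.card G) with hℓdef
  have hk0 : (1 : ℝ) ≤ k := by exact_mod_cast hk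
  have hkp : (0 : ℝ) < k := by linarith
  have hlogk : ℓ ≤ k := by linarith
  have hb : (0 : ℝ) < B.card := by exact_mod_cast hB.ne.card_pos
  set B1 : Finset G := {s, s⁻¹} with hB1def
  have hB1 : Sy B1 := by
    refine ⟨⟨s, by simp [hB1def]⟩, fun x hx => ?_⟩
    rw [hB1def, Finset.mem_insert, Finset.mem_singleton] at hx ⊢
    rcases hx with rfl | rfl
    · exact Or.inr rfl
    · left; exact inv_inv s
  have hsub : B1 ⊆ B := by
    intro x hx
    rw [hB1def, Finset.mem_insert, Finset.mem_singleton] at hx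
    rcases hx with rfl | rfl
    · exact hs
    · exact hB.inv s hs
  have hcard2 : (B1.card : ℝ) ≤ 2 := by
    exact_mod_cast (Finset.card_le_two : ({s, s⁻¹} : Finset G).card ≤ 2)
  have hb1 : (0 : ℝ) < B1.card := by exact_mod_cast hB1.ne.card_pos
  have hk3 : (1 : ℝ) ≤ (k : ℝ) ^ 3 := one_le_pow₀ hk0
  have hbig' : (10 : ℝ) ^ 6 ≤ B.card := by linarith
  have hcard : ((B \ B1).card : ℝ) = B.card - B1.card := by
    rw [Finset.card_sdiff_of_subset hsub, Nat.cast_sub (Finset.card_le_card hsub)]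
  have hb' : (0 : ℝ) < (B \ B1).card := by rw [hcard]; linarith
  have hB' : Sy (B \ B1) := by
    refine ⟨?_, fun x hx => ?_⟩
    · rw [← Finset.card_pos]; exact_mod_cast hb'
    · rw [Finset.mem_sdiff] at hx ⊢
      refine ⟨hB.inv x hx.1, fun h => hx.2 ?_⟩
      have := hB1.inv _ h
      rwa [inv_inv] at this
  obtain ⟨t, ht⟩ : ∃ t : ℝ, t = B1.card / B.card := ⟨_, rfl⟩
  have ht0 : 0 < t := by rw [ht]; positivity
  have htk : 10 ^ 6 * (k : ℝ) ^ 3 * t ≤ 2 := by
    have h1 : t * B.card = B1.card := by rw [ht]; field_simp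
    have h2 : 10 ^ 6 * (k : ℝ) ^ 3 * t ≤ B.card * t := mul_le_mul_of_nonneg_right hbig ht0.le
    linarith [mul_comm (B.card : ℝ) t]
  obtain ⟨_, hkt, hte⟩ := n_eps hk0 ht0 htk
  have h1t : 0 < 1 - t := by linarith
  -- the quantities
  have hq0 := qf_pos hB hC false k
  have hq1 := qf_pos hB hC true k
  set q0 := qf B C false k with hq0def
  set q1 := qf B C true k with hq1def
  have hr1 : ∀ τ y, 0 ≤ (M1 B C τ k) y 1 / qf B C τ k ∧
      (M1 B C τ k) y 1 / qf B C τ k ≤ 1 + ℓ / k := fun τ y => r1_le hB hC τ hk hlogk y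
  have hr2 : ∀ τ y, 0 ≤ (M2 B C τ k) y 1 / qf B C τ k ∧
      (M2 B C τ k) y 1 / qf B C τ k ≤ 1 + ℓ / k := fun τ y => r2_le hB hC τ hk hlogk y
  obtain ⟨R10, hR10⟩ : ∃ R, R = (UM B1 * M1 B C false k) 1 1 / q0 := ⟨_, rfl⟩
  obtain ⟨R20, hR20⟩ : ∃ R, R = (UM B1 * M2 B C false k) 1 1 / q0 := ⟨_, rfl⟩
  obtain ⟨R11, hR11⟩ : ∃ R, R = (UM B1 * M1 B C true k) 1 1 / q1 := ⟨_, rfl⟩
  obtain ⟨R21, hR21⟩ : ∃ R, R = (UM B1 * M2 B C true k) 1 1 / q1 := ⟨_, rfl⟩
  obtain ⟨av, hav⟩ : ∃ R, R = (UM B * M2 B C true k) 1 1 / q1 := ⟨_, rfl⟩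
  have a1 : 0 ≤ R10 := by rw [hR10, avg_eq]; exact avg_nonneg fun y => (hr1 false y).1
  have a2 : 0 ≤ R20 := by rw [hR20, avg_eq]; exact avg_nonneg fun y => (hr2 false y).1
  have a3 : 0 ≤ R11 := by rw [hR11, avg_eq]; exact avg_nonneg fun y => (hr1 true y).1
  have a4 : 0 ≤ R21 := by rw [hR21, avg_eq]; exact avg_nonneg fun y => (hr2 true y).1
  have b1 : R10 ≤ 1 + ℓ / k := by
    rw [hR10, avg_eq]; exact avg_le hB1.ne fun y => (hr1 false y).2
  have b2 : R20 ≤ 1 + ℓ / k := by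
    rw [hR20, avg_eq]; exact avg_le hB1.ne fun y => (hr2 false y).2
  have b3 : R11 ≤ 1 + ℓ / k := by
    rw [hR11, avg_eq]; exact avg_le hB1.ne fun y => (hr1 true y).2
  have b4 : R21 ≤ 1 + ℓ / k := by
    rw [hR21, avg_eq]; exact avg_le hB1.ne fun y => (hr2 true y).2
  have b5 : av ≤ 1 + ℓ / k := by
    rw [hav, avg_eq]; exact avg_le hB.ne fun y => (hr2 true y).2
  have a5 : 1 - ℓ / k ≤ av := by
    have h1 := r2_avg hB hC true hk
    have h2 : ∑ y, WM B C true 1 y * r2 B C true k y =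
        (1 / 2) * ((∑ y ∈ B, r2 B C true k y) / B.card) +
        (1 / 2) * ((∑ y ∈ C, r2 B C true k y) / C.card) := by
      rw [← um_sum, ← um_sum, Finset.mul_sum, Finset.mul_sum, ← Finset.sum_add_distrib]
      refine Finset.sum_congr rfl (fun y _ => ?_)
      have : WM B C true 1 y = 1 / 2 * (UM B 1 y + UM C 1 y) := by
        unfold WM
        rw [if_pos rfl, Matrix.smul_apply, Matrix.add_apply, smul_eq_mul]
      rw [this]
      ring
    rw [h2] at h1
    have h3 : (∑ y ∈ C, r2 B C true k y) / C.card ≤ 1 + ℓ / k :=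
      avg_le hC.ne fun y => (hr2 true y).2
    have h4 : av = (∑ y ∈ B, r2 B C true k y) / B.card := by
      rw [hav, avg_eq]; rfl
    rw [h4]
    linarith
  have hℓk' : ℓ / k ≤ 1 / 100 := by
    rw [div_le_iff₀ hkp]; linarith
  -- the inequality
  have L0 := q0_low hB hC hB1 hsub hb' ht k
  have L1 := q1_low hB hC hB1 hsub hb' ht hk
  rw [← hq0def] at L0
  rw [← hq1def] at L1
  have E0 : ((1 - t)⁻¹) ^ (6 * k) * (q0 - (2 * k : ℕ) *
      (2 * t * (UM B1 * M1 B C false k) 1 1 + t * (UM B1 * M2 B C false k) 1 1)) =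
      q0 * (((1 - t)⁻¹) ^ (6 * k) * (1 - t * (4 * k * R10 + 2 * k * R20))) := by
    have e1 : (UM B1 * M1 B C false k) 1 1 = q0 * R10 := by rw [hR10]; field_simp
    have e2 : (UM B1 * M2 B C false k) 1 1 = q0 * R20 := by rw [hR20]; field_simp
    rw [e1, e2]
    push_cast
    ring
  have E1 : ((1 - t)⁻¹) ^ (4 * k) * (q1 + (2 * k : ℕ) * ((1 - t)⁻¹ * t / 2 *
        (UM B * M2 B C true k) 1 1) - (2 * k : ℕ) * (((1 - t)⁻¹) ^ (2 * k) *
      (2 * t * (UM B1 * M1 B C true k) 1 1 + t / 2 * (UM B1 * M2 B C true k) 1 1))) =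
      q1 * (((1 - t)⁻¹) ^ (4 * k) * (1 + k * (1 - t)⁻¹ * t * av -
        ((1 - t)⁻¹) ^ (2 * k) * (t * (4 * k * R11 + k * R21)))) := by
    have e1 : (UM B1 * M1 B C true k) 1 1 = q1 * R11 := by rw [hR11]; field_simp
    have e2 : (UM B1 * M2 B C true k) 1 1 = q1 * R21 := by rw [hR21]; field_simp
    have e3 : (UM B * M2 B C true k) 1 1 = q1 * av := by rw [hav]; field_simp
    rw [e1, e2, e3]
    push_cast
    ring
  rw [E0] at L0
  rw [E1] at L1
  obtain ⟨F0, hF0⟩ : ∃ F, F = ((1 - t)⁻¹) ^ (6 * k) * (1 - t * (4 * k * R10 + 2 * k * R20)) :=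
    ⟨_, rfl⟩
  obtain ⟨F1, hF1⟩ : ∃ F, F = ((1 - t)⁻¹) ^ (4 * k) * (1 + k * (1 - t)⁻¹ * t * av -
        ((1 - t)⁻¹) ^ (2 * k) * (t * (4 * k * R11 + k * R21))) := ⟨_, rfl⟩
  rw [← hF0] at L0
  rw [← hF1] at L1
  have hM := hmax (B \ B1) Finset.sdiff_subset hB'
  have hF0nn : 0 ≤ F0 := by
    rw [hF0]
    refine mul_nonneg (pow_nonneg (inv_nonneg.2 h1t.le) _) ?_
    have h1 : t * (4 * k * R10 + 2 * k * R20) = (k * t) * (4 * R10 + 2 * R20) := by ring
    have h2 := n_rs (ε := k * t) (c1 := 4) (c2 := 2) (by positivity)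
      (b1.trans (by linarith)) (b2.trans (by linarith)) (by norm_num) (by norm_num)
    rw [h1]
    linarith
  have hq0' : 0 < qf (B \ B1) C false k := qf_pos hB' hC false k
  have hq1' : 0 < qf (B \ B1) C true k := qf_pos hB' hC true k
  have hprod : (1 - t) ^ κ * (F0 * F1) ≤ 1 := by
    have hrp : 0 < (1 - t) ^ κ := Real.rpow_pos_of_pos h1t κ
    rcases le_or_gt 0 F1 with hF1nn | hF1neg
    · have h1 : (q0 * F0) * (q1 * F1) ≤ qf (B \ B1) C false k * qf (B \ B1) C true k :=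
        mul_le_mul L0 L1 (by positivity) hq0'.le
      have h2 : ((B \ B1).card : ℝ) ^ κ = (B.card : ℝ) ^ κ * (1 - t) ^ κ := by
        rw [← Real.mul_rpow hb.le h1t.le]
        congr 1
        rw [hcard, ht]
        field_simp
      rw [h2] at hM
      have hbκ : 0 < (B.card : ℝ) ^ κ := Real.rpow_pos_of_pos hb κ
      have h3 : (B.card : ℝ) ^ κ * ((1 - t) ^ κ * (qf (B \ B1) C false k *
          qf (B \ B1) C true k)) ≤ (B.card : ℝ) ^ κ * (q0 * q1) := by
        calc _ = (B.card : ℝ) ^ κ * (1 - t) ^ κ * qf (B \ B1) C false k *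
              qf (B \ B1) C true k := by ring
          _ ≤ _ := hM
          _ = _ := by ring
      have h4 := le_of_mul_le_mul_left h3 hbκ
      have h5 : (1 - t) ^ κ * ((q0 * F0) * (q1 * F1)) ≤ q0 * q1 :=
        (mul_le_mul_of_nonneg_left h1 hrp.le).trans h4
      have h6 : (q0 * q1) * ((1 - t) ^ κ * (F0 * F1)) ≤ (q0 * q1) * 1 := by
        calc _ = (1 - t) ^ κ * ((q0 * F0) * (q1 * F1)) := by ring
          _ ≤ q0 * q1 := h5
          _ = _ := by ring
      exact le_of_mul_le_mul_left h6 (mul_pos hq0 hq1)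
    · have : F0 * F1 ≤ 0 := mul_nonpos_of_nonneg_of_nonpos hF0nn hF1neg.le
      have := mul_nonpos_of_nonneg_of_nonpos hrp.le this
      linarith
  rw [hF0, hF1] at hprod
  have key := num2 hk hℓ hℓk hκ hκk ht0 htk a1 b1 a2 b2 a3 b3 a4 b4 a5 b5 hprod
  have mulb : ∀ R : ℝ, R ≤ 1 + ℓ / k → k * R ≤ k + ℓ := by
    intro R hR
    have h1 := mul_le_mul_of_nonneg_left hR hkp.le
    have h2 : (k : ℝ) * (1 + ℓ / k) = k + ℓ := by field_simp
    linarith
  have m1 := mulb _ b1
  have m2 := mulb _ b2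
  have m3 := mulb _ b3
  have m4 := mulb _ b4
  have key' : 11 * (k : ℝ) - 2 * ℓ - κ ≤
      4 * (k * R10) + 2 * (k * R20) + 4 * (k * R11) + k * R21 := by
    calc _ ≤ k * (4 * R10 + 2 * R20 + 4 * R11 + R21) := key
      _ = _ := by ring
  have hℓ0 : 0 ≤ ℓ := by linarith
  have tw1 : ∀ τ, 2 * ((UM B1 * M1 B C τ k) 1 1 / qf B C τ k) - (1 + ℓ / k) ≤
      r1 B C τ k s := by
    intro τ
    rw [avg_eq]
    exact avg_two (s := s) (f := fun y => (M1 B C τ k) y 1 / qf B C τ k)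
      (fun y => (hr1 τ y).2)
  have tw2 : ∀ τ, 2 * ((UM B1 * M2 B C τ k) 1 1 / qf B C τ k) - (1 + ℓ / k) ≤
      r2 B C τ k s := by
    intro τ
    rw [avg_eq]
    exact avg_two (s := s) (f := fun y => (M2 B C τ k) y 1 / qf B C τ k)
      (fun y => (hr2 τ y).2)
  intro τ
  cases τ
  · have t1 := tw1 false
    have t2 := tw2 false
    rw [← hq0def, ← hR10] at t1
    rw [← hq0def, ← hR20] at t2
    exact ⟨last hkp hℓ0 hκ (by linarith) t1, last hkp hℓ0 hκ (by linarith) t2⟩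
  · have t1 := tw1 true
    have t2 := tw2 true
    rw [← hq1def, ← hR11] at t1
    rw [← hq1def, ← hR21] at t2
    exact ⟨last hkp hℓ0 hκ (by linarith) t1, last hkp hℓ0 hκ (by linarith) t2⟩

end

/-- TYP. -/
theorem typ : TYP_S.{u} := by
  intro G _ _ _ B C hB hC k κ hk hℓk hκ hκk hℓ hbig hmax τ s hs
  exact typ_aux B C hB hC k κ hk hℓk hκ hκk hℓ hbig hmax s hs τ

end Pool.Agent.Lib.MP_688fd0_co.TE.H74
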