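import Pool.Agent.Lib.MP_688fd0_co.TE.H41.Rup

/-!
# Theorem E, module TYP, part 1: Bernoulli inequalities for nonnegative matrices
-/

namespace Pool.Agent.Lib.MP_688fd0_co.TE.H74

open Finset
open Pool.Agent.Lib.MP_688fd0_co.TE.H41

universe u

set_option linter.unusedSectionVars false

section

variable {G : Type u} [Group G] [Fintype G] [DecidableEq G]

/-- Entrywise order. -/
def LEm (M N : Matrix G G ℝ) : Prop := ∀ x y, M x y ≤ N x y

theorem LEm.mul {M M' N N' : Matrix G G ℝ} (hM : NN M) (hN : NN N) (h1 : LEm M M')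
    (h2 : LEm N N') : LEm (M * N) (M' * N') := mul_mono hM hN h1 h2

theorem LEm.refl (M : Matrix G G ℝ) : LEm M M := fun _ _ => le_rfl

theorem LEm.add {M M' N N' : Matrix G G ℝ} (h1 : LEm M M') (h2 : LEm N N') :
    LEm (M + N) (M' + N') := fun x y => by
  rw [Matrix.add_apply, Matrix.add_apply]; exact add_le_add (h1 x y) (h2 x y)

theorem LEm.trans {M N P : Matrix G G ℝ} (h1 : LEm M N) (h2 : LEm N P) : LEm M P :=
  fun x y => (h1 x y).trans (h2 x y)

theorem LEm.smul {M N : Matrix G G ℝ} (h : LEm M N) {c : ℝ} (hc : 0 ≤ c) :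
    LEm (c • M) (c • N) := fun x y => by
  rw [Matrix.smul_apply, Matrix.smul_apply, smul_eq_mul, smul_eq_mul]
  exact mul_le_mul_of_nonneg_left (h x y) hc

theorem nn_one : NN (1 : Matrix G G ℝ) := fun x y => ds_one.nn x y

theorem nn_pow {A : Matrix G G ℝ} (h : NN A) (N : ℕ) : NN (A ^ N) := by
  induction N with
  | zero => rw [pow_zero]; exact nn_one
  | succ N ih => rw [pow_succ]; exact nn_mul ih h

theorem nn_add {A B : Matrix G G ℝ} (hA : NN A) (hB : NN B) : NN (A + B) := fun x y => by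
  rw [Matrix.add_apply]; exact add_nonneg (hA x y) (hB x y)

theorem nn_smul {A : Matrix G G ℝ} (hA : NN A) {c : ℝ} (hc : 0 ≤ c) : NN (c • A) := fun x y => by
  rw [Matrix.smul_apply, smul_eq_mul]; exact mul_nonneg hc (hA x y)

theorem inv_add {A B : Matrix G G ℝ} (hA : Inv A) (hB : Inv B) : Inv (A + B) := fun g x y => by
  rw [Matrix.add_apply, Matrix.add_apply, hA, hB]

theorem inv_smul' {A : Matrix G G ℝ} (hA : Inv A) (c : ℝ) : Inv (c • A) := fun g x y => by
  rw [Matrix.smul_apply, Matrix.smul_apply, hA]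

/-- First order terms. -/
noncomputable def Er (A D : Matrix G G ℝ) : ℕ → Matrix G G ℝ
  | 0 => 0
  | N + 1 => Er A D N * A + A ^ N * D

theorem nn_er {A D : Matrix G G ℝ} (hA : NN A) (hD : NN D) (N : ℕ) : NN (Er A D N) := by
  induction N with
  | zero => intro x y; exact le_rfl
  | succ N ih => exact nn_add (nn_mul ih hA) (nn_mul (nn_pow hA N) hD)

theorem inv_er {A D : Matrix G G ℝ} (hA : Inv A) (hD : Inv D) (N : ℕ) : Inv (Er A D N) := by
  induction N with
  | zero => intro g x y; rfl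
  | succ N ih => exact inv_add (inv_mul ih hA) (inv_mul (inv_pow hA N) hD)

theorem er_cyc {A D : Matrix G G ℝ} (iA : Inv A) (iD : Inv D) (N : ℕ) :
    ∀ j : ℕ, (Er A D N * A ^ j) 1 1 = N * (D * A ^ (N - 1 + j)) 1 1 := by
  induction N with
  | zero =>
    intro j
    show ((0 : Matrix G G ℝ) * A ^ j) 1 1 = _
    rw [zero_mul]
    simp
  | succ N ih =>
    intro j
    have h1 : Er A D (N + 1) * A ^ j = Er A D N * A ^ (j + 1) + A ^ N * (D * A ^ j) := by
      show (Er A D N * A + A ^ N * D) * A ^ j = _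
      rw [add_mul, pow_succ' A j, Matrix.mul_assoc, Matrix.mul_assoc]
    rw [h1, Matrix.add_apply, ih (j + 1), cyc (inv_pow iA N) (inv_mul iD (inv_pow iA j)),
      Matrix.mul_assoc, ← pow_add]
    rcases Nat.eq_zero_or_pos N with rfl | hN
    · simp
    · have h2 : N - 1 + (j + 1) = j + N := by omega
      have h3 : N + 1 - 1 + j = j + N := by omega
      rw [h2, h3]
      push_cast
      ring

theorem er_one {A D : Matrix G G ℝ} (iA : Inv A) (iD : Inv D) (N : ℕ) :
    (Er A D N) 1 1 = N * (D * A ^ (N - 1)) 1 1 := by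
  have := er_cyc iA iD N 0
  rw [pow_zero, mul_one, add_zero] at this
  exact this

/-- Bernoulli, upper bound of the loss. -/
theorem bern {A A' D : Matrix G G ℝ} (hA' : NN A') (h : LEm A' A) (hD : NN D)
    (hAD : ∀ x y, A x y - A' x y ≤ D x y) (iA : Inv A) (iD : Inv D) (N : ℕ) :
    (A ^ N) 1 1 - N * (D * A ^ (N - 1)) 1 1 ≤ (A' ^ N) 1 1 := by
  have hA : NN A := fun x y => (hA' x y).trans (h x y)
  have key : ∀ x y, (A ^ N) x y - (A' ^ N) x y ≤ (Er A D N) x y := by
    induction N with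
    | zero => intro x y; rw [pow_zero, pow_zero, sub_self]; exact nn_er hA hD 0 x y
    | succ N ih =>
      intro x y
      have h0 : A ^ (N + 1) - A' ^ (N + 1) = (A ^ N - A' ^ N) * A' + A ^ N * (A - A') := by
        rw [pow_succ, pow_succ, sub_mul, mul_sub]
        abel
      have h1 : (A ^ (N + 1)) x y - (A' ^ (N + 1)) x y =
          ((A ^ N - A' ^ N) * A') x y + (A ^ N * (A - A')) x y := by
        rw [← Matrix.sub_apply, h0, Matrix.add_apply]
      have h2 : ((A ^ N - A' ^ N) * A') x y ≤ (Er A D N * A) x y := by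
        rw [Matrix.mul_apply, Matrix.mul_apply]
        refine Finset.sum_le_sum fun z _ => ?_
        refine (mul_le_mul_of_nonneg_right (?_ : (A ^ N - A' ^ N) x z ≤ Er A D N x z)
          (hA' z y)).trans (mul_le_mul_of_nonneg_left (h z y) (nn_er hA hD N x z))
        rw [Matrix.sub_apply]
        exact ih x z
      have h3 : (A ^ N * (A - A')) x y ≤ (A ^ N * D) x y := by
        rw [Matrix.mul_apply, Matrix.mul_apply]
        refine Finset.sum_le_sum fun z _ => ?_
        refine mul_le_mul_of_nonneg_left ?_ (nn_pow hA N x z)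
        rw [Matrix.sub_apply]
        exact hAD z y
      rw [h1]
      show _ ≤ (Er A D N * A + A ^ N * D) x y
      rw [Matrix.add_apply]
      exact add_le_add h2 h3
  have := key 1 1
  rw [er_one iA iD] at this
  linarith

/-- Bernoulli, lower bound of the gain. -/
theorem bern2 {A S E : Matrix G G ℝ} (hS : NN S) (hE : NN E) (h : LEm (S + E) A)
    (iS : Inv S) (iE : Inv E) (N : ℕ) :
    (S ^ N) 1 1 + N * (E * S ^ (N - 1)) 1 1 ≤ (A ^ N) 1 1 := by
  have key : LEm (S ^ N + Er S E N) (A ^ N) := by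
    induction N with
    | zero =>
      intro x y
      show (S ^ 0 + (0 : Matrix G G ℝ)) x y ≤ (A ^ 0) x y
      rw [pow_zero, pow_zero, add_zero]
    | succ N ih =>
      rw [pow_succ A]
      refine LEm.trans ?_ (LEm.mul (nn_add (nn_pow hS N) (nn_er hS hE N)) (nn_add hS hE) ih h)
      intro x y
      have h1 : (S ^ N + Er S E N) * (S + E) =
          (S ^ (N + 1) + Er S E (N + 1)) + Er S E N * E := by
        show _ = (S ^ (N + 1) + (Er S E N * S + S ^ N * E)) + Er S E N * E
        rw [pow_succ, add_mul, mul_add, mul_add]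
        abel
      rw [h1, Matrix.add_apply _ (Er S E N * E)]
      have := nn_mul (nn_er hS hE N) hE x y
      linarith
  have := key 1 1
  rw [Matrix.add_apply, er_one iS iE] at this
  exact this

theorem pow_le {A S : Matrix G G ℝ} {c : ℝ} (hA : NN A) (h : LEm A (c • S)) (N : ℕ) :
    LEm (A ^ N) (c ^ N • S ^ N) := by
  induction N with
  | zero => rw [pow_zero, pow_zero, pow_zero, one_smul]; exact LEm.refl _
  | succ N ih =>
    rw [pow_succ, pow_succ, pow_succ]
    have := LEm.mul (nn_pow hA N) hA ih h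
    rwa [Matrix.smul_mul, Matrix.mul_smul, smul_smul] at this

/-- Three factors. -/
theorem prod3 {A1 A2 A3 B1 B2 B3 D1 D2 D3 : Matrix G G ℝ} (hB1 : NN B1) (hB2 : NN B2)
    (hB3 : NN B3) (h1 : LEm B1 A1) (h2 : LEm B2 A2) (h3 : LEm B3 A3)
    (d1 : ∀ x y, A1 x y - B1 x y ≤ D1 x y) (d2 : ∀ x y, A2 x y - B2 x y ≤ D2 x y)
    (d3 : ∀ x y, A3 x y - B3 x y ≤ D3 x y) (x y : G) :
    (A1 * A2 * A3) x y - (B1 * B2 * B3) x y ≤
      (D1 * A2 * A3 + A1 * D2 * A3 + A1 * A2 * D3) x y := by
  have hA1 : NN A1 := fun x y => (hB1 x y).trans (h1 x y)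
  have hA2 : NN A2 := fun x y => (hB2 x y).trans (h2 x y)
  have hA3 : NN A3 := fun x y => (hB3 x y).trans (h3 x y)
  have e1 : LEm (A1 - B1) D1 := fun x y => by rw [Matrix.sub_apply]; exact d1 x y
  have e2 : LEm (A2 - B2) D2 := fun x y => by rw [Matrix.sub_apply]; exact d2 x y
  have e3 : LEm (A3 - B3) D3 := fun x y => by rw [Matrix.sub_apply]; exact d3 x y
  have n1 : NN (A1 - B1) := fun x y => by rw [Matrix.sub_apply]; exact sub_nonneg.2 (h1 x y)
  have n2 : NN (A2 - B2) := fun x y => by rw [Matrix.sub_apply]; exact sub_nonneg.2 (h2 x y)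
  have n3 : NN (A3 - B3) := fun x y => by rw [Matrix.sub_apply]; exact sub_nonneg.2 (h3 x y)
  have h0 : A1 * A2 * A3 - B1 * B2 * B3 =
      (A1 - B1) * A2 * A3 + B1 * (A2 - B2) * A3 + B1 * B2 * (A3 - B3) := by
    simp only [sub_mul, mul_sub]
    abel
  rw [← Matrix.sub_apply, h0]
  refine LEm.add (LEm.add ?_ ?_) ?_ x y
  · exact LEm.mul (nn_mul n1 hA2) hA3 (LEm.mul n1 hA2 e1 (LEm.refl _)) (LEm.refl _)
  · exact LEm.mul (nn_mul hB1 n2) hA3 (LEm.mul hB1 n2 h1 e2) (LEm.refl _)
  · exact LEm.mul (nn_mul hB1 hB2) n3 (LEm.mul hB1 hB2 h1 h2) e3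

end

end Pool.Agent.Lib.MP_688fd0_co.TE.H74
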